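import Mathlib

open MeasureTheory Complex Filter Topology
open scoped InnerProductSpace ComplexOrder

namespace Pool.Agent.Helper56.PD

/-- value at `t` of the exponential sum with coefficients `c` -/
noncomputable def eSum (c : ℝ →₀ ℂ) (t : ℝ) : ℂ := c.sum fun l a => a * Complex.exp (Complex.I * l * t)

/-- the functional with symbol `f` -/
noncomputable def phi (f : ℝ → ℂ) (c : ℝ →₀ ℂ) : ℂ := c.sum fun l a => a * f l

theorem eSum_eq_phi (c : ℝ →₀ ℂ) (t : ℝ) :
    eSum c t = phi (fun l => Complex.exp (Complex.I * l * t)) c := rfl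

theorem phi_zero (f : ℝ → ℂ) : phi f 0 = 0 := by simp [phi]

theorem phi_add (f : ℝ → ℂ) (c d : ℝ →₀ ℂ) : phi f (c + d) = phi f c + phi f d := by
  unfold phi
  rw [Finsupp.sum_add_index'] <;> intros <;> ring

theorem phi_smul (f : ℝ → ℂ) (r : ℂ) (c : ℝ →₀ ℂ) : phi f (r • c) = r * phi f c := by
  unfold phi
  rw [Finsupp.sum_smul_index (by intros; simp), Finsupp.mul_sum]
  refine Finsupp.sum_congr fun x _ => ?_
  ring

theorem phi_rsmul (f : ℝ → ℂ) (r : ℝ) (c : ℝ →₀ ℂ) : phi f (r • c) = r * phi f c := by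
  have : (r • c) = ((r : ℂ) • c) := by ext x; simp
  rw [this, phi_smul]

theorem phi_neg (f : ℝ → ℂ) (c : ℝ →₀ ℂ) : phi f (-c) = - phi f c := by
  have : -c = (-1 : ℂ) • c := by simp
  rw [this, phi_smul]; ring

theorem phi_sub (f : ℝ → ℂ) (c d : ℝ →₀ ℂ) : phi f (c - d) = phi f c - phi f d := by
  rw [sub_eq_add_neg, phi_add, phi_neg]; ring

theorem phi_single (f : ℝ → ℂ) (l : ℝ) (a : ℂ) : phi f (Finsupp.single l a) = a * f l := by
  simp [phi]

theorem phi_finsum {α : Type*} (f : ℝ → ℂ) (s : Finset α) (g : α → ℝ →₀ ℂ) :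
    phi f (∑ i ∈ s, g i) = ∑ i ∈ s, phi f (g i) := by
  classical
  induction s using Finset.induction_on with
  | empty => simp [phi_zero]
  | insert a s ha ih => rw [Finset.sum_insert ha, Finset.sum_insert ha, phi_add, ih]

theorem norm_exp_I (l t : ℝ) : ‖Complex.exp (Complex.I * l * t)‖ = 1 := by
  have : Complex.I * l * t = ((l * t : ℝ) : ℂ) * Complex.I := by push_cast; ring
  rw [this, Complex.norm_exp_ofReal_mul_I]

theorem conj_exp_I (l t : ℝ) :
    (starRingEnd ℂ) (Complex.exp (Complex.I * l * t)) = Complex.exp (Complex.I * ((-l : ℝ) : ℂ) * t) := by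
  rw [← Complex.exp_conj]
  congr 1
  simp only [map_mul, Complex.conj_I, Complex.conj_ofReal]
  push_cast; ring

theorem norm_eSum_le (c : ℝ →₀ ℂ) (t : ℝ) : ‖eSum c t‖ ≤ ∑ l ∈ c.support, ‖c l‖ := by
  unfold eSum Finsupp.sum
  refine (norm_sum_le _ _).trans ?_
  refine Finset.sum_le_sum fun l _ => ?_
  rw [norm_mul, norm_exp_I, mul_one]

/-- reflection-conjugation of coefficients -/
noncomputable def cstar (c : ℝ →₀ ℂ) : ℝ →₀ ℂ :=
  c.sum fun l a => Finsupp.single (-l) ((starRingEnd ℂ) a)

theorem phi_cstar (f : ℝ → ℂ) (c : ℝ →₀ ℂ) :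
    phi f (cstar c) = c.sum fun l a => (starRingEnd ℂ) a * f (-l) := by
  unfold cstar
  rw [Finsupp.sum, phi_finsum]
  simp only [phi_single]
  rfl

theorem cstar_support (c : ℝ →₀ ℂ) (I : Set ℝ) (hI : ∀ l ∈ I, -l ∈ I) (hc : ↑c.support ⊆ I) :
    ↑(cstar c).support ⊆ I := by
  classical
  intro x hx
  have h1 := Finsupp.support_sum (f := c) (g := fun l a => Finsupp.single (-l) ((starRingEnd ℂ) a)) hx
  rw [Finset.mem_biUnion] at h1
  obtain ⟨l, hl, hx2⟩ := h1
  have h2 := Finsupp.support_single_subset hx2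
  rw [Finset.mem_singleton] at h2
  rw [h2]
  exact hI l (hc hl)

theorem eSum_cstar (c : ℝ →₀ ℂ) (t : ℝ) : eSum (cstar c) t = (starRingEnd ℂ) (eSum c t) := by
  rw [eSum_eq_phi, phi_cstar]
  unfold eSum
  rw [map_finsuppSum]
  refine Finsupp.sum_congr fun l _ => ?_
  rw [map_mul, conj_exp_I]

/-- upper bound of real part -/
noncomputable def supRe (c : ℝ →₀ ℂ) : ℝ := ⨆ t : ℝ, (eSum c t).re

theorem supRe_bdd (c : ℝ →₀ ℂ) : BddAbove (Set.range fun t : ℝ => (eSum c t).re) := by
  refine ⟨∑ l ∈ c.support, ‖c l‖, ?_⟩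
  rintro _ ⟨t, rfl⟩
  exact (Complex.re_le_norm _).trans (norm_eSum_le c t)

theorem le_supRe (c : ℝ →₀ ℂ) (t : ℝ) : (eSum c t).re ≤ supRe c := le_ciSup (supRe_bdd c) t

theorem supRe_le (c : ℝ →₀ ℂ) (B : ℝ) (h : ∀ t, (eSum c t).re ≤ B) : supRe c ≤ B := ciSup_le h

theorem supRe_zero : supRe 0 = 0 := by
  unfold supRe
  simp [eSum]

theorem supRe_add (c d : ℝ →₀ ℂ) : supRe (c + d) ≤ supRe c + supRe d := by
  refine supRe_le _ _ fun t => ?_
  rw [eSum_eq_phi, phi_add, Complex.add_re]
  exact add_le_add (le_supRe c t) (le_supRe d t)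

theorem supRe_smul (r : ℝ) (hr : 0 < r) (c : ℝ →₀ ℂ) : supRe (r • c) = r * supRe c := by
  unfold supRe
  rw [Real.mul_iSup_of_nonneg hr.le]
  congr 1
  funext t
  rw [eSum_eq_phi, phi_rsmul, Complex.re_ofReal_mul, ← eSum_eq_phi]

/-- positivity of the functional on nonnegative exponential sums -/
def PosType (F : ℝ → ℂ) : Prop := ∀ c : ℝ →₀ ℂ, (∀ t, 0 ≤ eSum c t) → 0 ≤ phi F c

theorem hahn_banach (I : Set ℝ) (hI : ∀ l ∈ I, -l ∈ I) (f : ℝ → ℂ)
    (hf : ∀ l ∈ I, f (-l) = (starRingEnd ℂ) (f l)) (M : ℝ) (hM : 0 ≤ M)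
    (hb : ∀ c : ℝ →₀ ℂ, ↑c.support ⊆ I → ∀ B : ℝ, (∀ t, ‖eSum c t‖ ≤ B) → ‖phi f c‖ ≤ M * B) :
    ∃ F₁ F₂ : ℝ → ℂ, PosType F₁ ∧ PosType F₂ ∧ ∀ l ∈ I, f l = F₁ l - F₂ l := by
  -- domain
  let D : Submodule ℝ ((ℝ →₀ ℂ) × (ℝ →₀ ℂ)) :=
    { carrier := {x | ↑x.1.support ⊆ I ∧ x.2 = - x.1}
      zero_mem' := by simp
      add_mem' := by
        rintro ⟨a1, a2⟩ ⟨b1, b2⟩ ⟨ha, ha'⟩ ⟨hb, hb'⟩
        simp only at ha ha' hb hb'
        refine ⟨?_, ?_⟩
        · classical
          intro x hx
          have := Finsupp.support_add hx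
          rcases Finset.mem_union.1 this with h | h
          · exact ha h
          · exact hb h
        · simp only [Prod.mk_add_mk, ha', hb']; abel
      smul_mem' := by
        rintro r ⟨a1, a2⟩ ⟨ha, ha'⟩
        simp only at ha ha'
        refine ⟨?_, ?_⟩
        · intro x hx
          exact ha (Finsupp.support_smul hx)
        · simp only [Prod.smul_mk, ha', smul_neg] }
  let toF : ((ℝ →₀ ℂ) × (ℝ →₀ ℂ)) →ₗ[ℝ] ℝ :=
    { toFun := fun x => (phi f x.1).re
      map_add' := by
        intro x y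
        simp only [Prod.fst_add, phi_add, Complex.add_re]
      map_smul' := by
        intro r x
        simp only [Prod.smul_fst, phi_rsmul, Complex.re_ofReal_mul, RingHom.id_apply, smul_eq_mul] }
  let fD : ((ℝ →₀ ℂ) × (ℝ →₀ ℂ)) →ₗ.[ℝ] ℝ := ⟨D, toF.comp D.subtype⟩
  let N : ((ℝ →₀ ℂ) × (ℝ →₀ ℂ)) → ℝ := fun x => M * max (supRe x.1) (supRe x.2)
  obtain ⟨g, hg1, hg2⟩ := exists_extension_of_le_sublinear fD N
    (by
      intro c hc x
      simp only [N, Prod.smul_fst, Prod.smul_snd, supRe_smul c hc]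
      rw [← mul_max_of_nonneg _ _ hc.le]
      ring)
    (by
      intro x y
      simp only [N, Prod.fst_add, Prod.snd_add]
      rw [← mul_add]
      refine mul_le_mul_of_nonneg_left ?_ hM
      refine max_le ?_ ?_
      · exact (supRe_add _ _).trans (add_le_add (le_max_left _ _) (le_max_left _ _))
      · exact (supRe_add _ _).trans (add_le_add (le_max_right _ _) (le_max_right _ _)))
    (by
      rintro ⟨⟨c, d⟩, hc, hd⟩
      simp only at hc hd
      subst hd
      show (phi f c).re ≤ M * max (supRe c) (supRe (-c))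
      -- symmetrise
      let c' : ℝ →₀ ℂ := (1/2 : ℂ) • (c + cstar c)
      have hsupp : ↑c'.support ⊆ I := by
        classical
        intro x hx
        have h1 := Finsupp.support_smul hx
        have h2 := Finsupp.support_add h1
        rcases Finset.mem_union.1 h2 with h | h
        · exact hc h
        · exact cstar_support c I hI hc h
      have he : ∀ t, eSum c' t = ((eSum c t).re : ℂ) := by
        intro t
        rw [eSum_eq_phi, phi_smul, phi_add, ← eSum_eq_phi, ← eSum_eq_phi, eSum_cstar,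
          Complex.add_conj]
        push_cast; ring
      have hphi : phi f c' = ((phi f c).re : ℂ) := by
        have h1 : phi f (cstar c) = (starRingEnd ℂ) (phi f c) := by
          rw [phi_cstar]
          unfold phi
          rw [map_finsuppSum]
          unfold Finsupp.sum
          refine Finset.sum_congr rfl fun l hl => ?_
          show (starRingEnd ℂ) (c l) * f (-l) = (starRingEnd ℂ) (c l * f l)
          rw [map_mul, hf l (hc hl)]
        rw [phi_smul, phi_add, h1, Complex.add_conj]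
        push_cast; ring
      have h3 := hb c' hsupp (max (supRe c) (supRe (-c))) (by
        intro t
        rw [he, Complex.norm_real, Real.norm_eq_abs, abs_le']
        refine ⟨(le_supRe c t).trans (le_max_left _ _), ?_⟩
        refine le_trans ?_ (le_max_right _ _)
        have := le_supRe (-c) t
        rwa [eSum_eq_phi, phi_neg, Complex.neg_re, ← eSum_eq_phi] at this)
      rw [hphi, Complex.norm_real, Real.norm_eq_abs] at h3
      exact (le_abs_self _).trans h3)
  -- positivity of g on each factor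
  have pos1 : ∀ c : ℝ →₀ ℂ, (∀ t, 0 ≤ (eSum c t).re) → 0 ≤ g (c, 0) := by
    intro c hc
    have h1 := hg2 (-c, 0)
    have h2 : supRe (-c) ≤ 0 := by
      refine supRe_le _ _ fun t => ?_
      rw [eSum_eq_phi, phi_neg, Complex.neg_re, ← eSum_eq_phi]
      linarith [hc t]
    have h3 : N (-c, 0) ≤ 0 := by
      simp only [N, supRe_zero]
      rw [max_eq_right h2, mul_zero]
    have h4 : g (-c, 0) = - g (c, 0) := by
      rw [← map_neg]; simp
    linarith
  have pos2 : ∀ c : ℝ →₀ ℂ, (∀ t, 0 ≤ (eSum c t).re) → 0 ≤ g (0, c) := by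
    intro c hc
    have h1 := hg2 (0, -c)
    have h2 : supRe (-c) ≤ 0 := by
      refine supRe_le _ _ fun t => ?_
      rw [eSum_eq_phi, phi_neg, Complex.neg_re, ← eSum_eq_phi]
      linarith [hc t]
    have h3 : N (0, -c) ≤ 0 := by
      simp only [N, supRe_zero]
      rw [max_eq_left h2, mul_zero]
    have h4 : g (0, -c) = - g (0, c) := by
      rw [← map_neg]; simp
    linarith
  -- complexification of a real functional
  have key : ∀ L : (ℝ →₀ ℂ) →ₗ[ℝ] ℝ, (∀ c : ℝ →₀ ℂ, (∀ t, 0 ≤ (eSum c t).re) → 0 ≤ L c) →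
      ∀ F : ℝ → ℂ, (∀ l, F l = L (Finsupp.single l 1) - Complex.I * L (Finsupp.single l Complex.I)) →
      PosType F := by
    intro L hL F hF
    have hrep : ∀ c : ℝ →₀ ℂ, phi F c = L c - Complex.I * L (Complex.I • c) := by
      intro c
      induction c using Finsupp.induction_linear with
      | zero => simp [phi_zero]
      | add c d hc hd => rw [phi_add, smul_add, map_add, map_add, hc, hd]; push_cast; ring
      | single l a =>
        rw [phi_single, hF]
        have e1 : (Finsupp.single l a : ℝ →₀ ℂ) =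
            a.re • Finsupp.single l (1:ℂ) + a.im • Finsupp.single l Complex.I := by
          ext x
          by_cases hx : l = x
          · subst hx
            simp [Complex.re_add_im]
          · simp [Finsupp.single_eq_of_ne' hx]
        have e2 : Complex.I • (Finsupp.single l a : ℝ →₀ ℂ) =
            (-a.im) • Finsupp.single l (1:ℂ) + a.re • Finsupp.single l Complex.I := by
          ext x
          by_cases hx : l = x
          · subst hx
            simp only [Finsupp.smul_single, smul_eq_mul, Finsupp.single_eq_same,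
              Finsupp.coe_add, Pi.add_apply, Complex.real_smul]
            conv_lhs => rw [← Complex.re_add_im a]
            ring_nf
            rw [Complex.I_sq]; push_cast; ring
          · simp [Finsupp.single_eq_of_ne' hx]
        rw [e2]
        conv_rhs => rw [e1]
        rw [map_add, map_add, map_smul, map_smul, map_smul, map_smul]
        simp only [smul_eq_mul]
        conv_lhs => rw [← Complex.re_add_im a]
        push_cast
        ring_nf
        rw [Complex.I_sq]; ring
    intro c hc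
    have h1 : 0 ≤ L c := hL c fun t => (Complex.le_def.1 (hc t)).1
    have him : ∀ t, (eSum c t).im = 0 := fun t => ((Complex.le_def.1 (hc t)).2).symm
    have h2 : 0 ≤ L (Complex.I • c) := by
      apply hL
      intro t
      rw [eSum_eq_phi, phi_smul, ← eSum_eq_phi, Complex.mul_re, him t]
      simp
    have h3 : 0 ≤ L (-(Complex.I • c)) := by
      apply hL
      intro t
      rw [eSum_eq_phi, phi_neg, phi_smul, ← eSum_eq_phi, Complex.neg_re, Complex.mul_re, him t]
      simp
    rw [map_neg] at h3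
    have h4 : L (Complex.I • c) = 0 := by linarith
    rw [hrep, h4]
    simp only [Complex.ofReal_zero, mul_zero, sub_zero]
    exact_mod_cast h1
  let L1 : (ℝ →₀ ℂ) →ₗ[ℝ] ℝ := g.comp (LinearMap.inl ℝ _ _)
  let L2 : (ℝ →₀ ℂ) →ₗ[ℝ] ℝ := g.comp (LinearMap.inr ℝ _ _)
  refine ⟨fun l => L1 (Finsupp.single l 1) - Complex.I * L1 (Finsupp.single l Complex.I),
    fun l => L2 (Finsupp.single l 1) - Complex.I * L2 (Finsupp.single l Complex.I),
    key L1 pos1 _ (fun _ => rfl), key L2 pos2 _ (fun _ => rfl), ?_⟩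
  intro l hl
  have hmem : ∀ a : ℂ, ((Finsupp.single l a, -Finsupp.single l a) : (ℝ →₀ ℂ) × (ℝ →₀ ℂ)) ∈ D := by
    intro a
    refine ⟨?_, rfl⟩
    intro x hx
    have := Finsupp.support_single_subset hx
    rw [Finset.mem_singleton] at this
    rw [this]; exact hl
  have hv : ∀ a : ℂ, L1 (Finsupp.single l a) - L2 (Finsupp.single l a) = (a * f l).re := by
    intro a
    have h1 := hg1 ⟨_, hmem a⟩
    have h2 : fD ⟨_, hmem a⟩ = (a * f l).re := by
      show (phi f (Finsupp.single l a)).re = _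
      rw [phi_single]
    rw [h2] at h1
    rw [← h1]
    show g (Finsupp.single l a, 0) - g (0, Finsupp.single l a) = _
    rw [← map_sub]
    simp
  have h1 := hv 1
  have h2 := hv Complex.I
  have e1 : ((L1 (Finsupp.single l 1) : ℝ) : ℂ) - (L2 (Finsupp.single l 1) : ℝ) = ((f l).re : ℂ) := by
    rw [one_mul] at h1
    exact_mod_cast h1
  have e2 : ((L1 (Finsupp.single l Complex.I) : ℝ) : ℂ) - (L2 (Finsupp.single l Complex.I) : ℝ)
      = (-(f l).im : ℂ) := by
    have : (Complex.I * f l).re = -(f l).im := by simp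
    rw [this] at h2
    exact_mod_cast h2
  have e3 : f l = ((f l).re : ℂ) - Complex.I * (-(f l).im : ℂ) := by
    conv_lhs => rw [← Complex.re_add_im (f l)]
    ring
  rw [e3, ← e1, ← e2]
  ring

end Pool.Agent.Helper56.PD
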