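import Mathlib

open MeasureTheory Complex Filter Topology
open scoped InnerProductSpace

namespace Pool.Agent.Helper56.PD

variable {H : Type*} [NormedAddCommGroup H] [InnerProductSpace ℂ H]

/-- An (arbitrary, not necessarily continuous) unitary representation of the additive group `ℝ`. -/
structure Rep (U : ℝ → H →L[ℂ] H) : Prop where
  zero : ∀ h, U 0 h = h
  add : ∀ x y h, U (x + y) h = U x (U y h)
  inner : ∀ x g h, ⟪U x g, U x h⟫_ℂ = ⟪g, h⟫_ℂ

namespace Rep

variable {U : ℝ → H →L[ℂ] H}

theorem inner_left (hU : Rep U) (x : ℝ) (g h : H) : ⟪U x g, h⟫_ℂ = ⟪g, U (-x) h⟫_ℂ := by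
  have h1 : U x (U (-x) h) = h := by rw [← hU.add, add_neg_cancel, hU.zero]
  conv_lhs => rw [← h1]
  rw [hU.inner]

theorem inner_right (hU : Rep U) (x : ℝ) (g h : H) : ⟪g, U x h⟫_ℂ = ⟪U (-x) g, h⟫_ℂ := by
  rw [hU.inner_left, neg_neg]

theorem neg (hU : Rep U) : Rep (fun x => U (-x)) where
  zero h := by simpa using hU.zero h
  add x y h := by
    show U (-(x + y)) h = U (-x) (U (-y) h)
    rw [← hU.add]; congr 2; ring
  inner x g h := hU.inner _ g h

theorem conj_coeff (hU : Rep U) (x : ℝ) (g : H) :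
    ⟪g, U x g⟫_ℂ = (starRingEnd ℂ) ⟪g, U (-x) g⟫_ℂ := by
  rw [inner_conj_symm, hU.inner_left, neg_neg]

end Rep

/-- vectors whose coefficients are measurable on `S` against the fixed vector `v` -/
def measCoeff (U : ℝ → H →L[ℂ] H) (v : H) (S : Set ℝ) : Submodule ℂ H where
  carrier := {w | AEMeasurable (fun x => ⟪w, U x v⟫_ℂ) (volume.restrict S)}
  zero_mem' := by simp
  add_mem' := by
    intro a b ha hb
    simp only [Set.mem_ofPred_eq, inner_add_left] at *
    exact ha.add hb
  smul_mem' := by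
    intro c a ha
    simp only [Set.mem_ofPred_eq, inner_smul_left] at *
    exact ha.const_mul _

theorem mem_measCoeff {U : ℝ → H →L[ℂ] H} {v : H} {S : Set ℝ} {w : H} :
    w ∈ measCoeff U v S ↔ AEMeasurable (fun x => ⟪w, U x v⟫_ℂ) (volume.restrict S) := Iff.rfl

theorem measCoeff_closed (U : ℝ → H →L[ℂ] H) (v : H) (S : Set ℝ) :
    IsClosed (measCoeff U v S : Set H) := by
  apply IsSeqClosed.isClosed
  intro w w0 hw hlim
  refine aemeasurable_of_tendsto_metrizable_ae atTop (f := fun n x => ⟪w n, U x v⟫_ℂ) hw ?_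
  refine Filter.Eventually.of_forall fun x => ?_
  exact hlim.inner tendsto_const_nhds

/-- The vectors all of whose coefficients are measurable on the line. -/
def Hm (U : ℝ → H →L[ℂ] H) : Submodule ℂ H where
  carrier := {h | ∀ w, AEMeasurable (fun x => ⟪w, U x h⟫_ℂ) volume}
  zero_mem' := by simp
  add_mem' := by
    intro a b ha hb w
    simp only [Set.mem_ofPred_eq, map_add, inner_add_right] at *
    exact (ha w).add (hb w)
  smul_mem' := by
    intro c a ha w
    simp only [Set.mem_ofPred_eq, map_smul, inner_smul_right] at *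
    exact (ha w).const_mul _

theorem mem_Hm {U : ℝ → H →L[ℂ] H} {h : H} :
    h ∈ Hm U ↔ ∀ w, AEMeasurable (fun x => ⟪w, U x h⟫_ℂ) volume := Iff.rfl

theorem Hm_closed (U : ℝ → H →L[ℂ] H) : IsClosed (Hm U : Set H) := by
  apply IsSeqClosed.isClosed
  intro w w0 hw hlim g
  refine aemeasurable_of_tendsto_metrizable_ae atTop (f := fun n x => ⟪g, U x (w n)⟫_ℂ)
    (fun n => hw n g) ?_
  refine Filter.Eventually.of_forall fun x => ?_
  have : Tendsto (fun n => U x (w n)) atTop (𝓝 (U x w0)) :=
    ((U x).continuous.tendsto _).comp hlim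
  exact tendsto_const_nhds.inner this

theorem Hm_invariant {U : ℝ → H →L[ℂ] H} (hU : Rep U) {h : H} (hh : h ∈ Hm U) (y : ℝ) :
    U y h ∈ Hm U := by
  intro w
  have h1 : (fun x => ⟪w, U x (U y h)⟫_ℂ) = (fun x => ⟪w, U x h⟫_ℂ) ∘ (fun x => x + y) := by
    funext x; simp [hU.add]
  rw [h1]
  exact (hh w).comp_quasiMeasurePreserving
    (measurePreserving_add_right volume y).quasiMeasurePreserving

theorem orth_invariant {U : ℝ → H →L[ℂ] H} (hU : Rep U) {h : H} (hh : h ∈ (Hm U)ᗮ) (y : ℝ) :
    U y h ∈ (Hm U)ᗮ := by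
  rw [Submodule.mem_orthogonal] at *
  intro w hw
  rw [hU.inner_right]
  exact hh _ (Hm_invariant hU hw _)

/-- If the diagonal coefficient of `G` is measurable then all coefficients are. -/
theorem mem_Hm_of_diag [CompleteSpace H] {U : ℝ → H →L[ℂ] H} (hU : Rep U) {G : H}
    (hG : AEMeasurable (fun x => ⟪G, U x G⟫_ℂ) volume) : G ∈ Hm U := by
  intro w
  let S : Submodule ℂ H := measCoeff U G Set.univ
  have hScl : IsClosed (S : Set H) := measCoeff_closed U G Set.univ
  have hcomplete : CompleteSpace S := hScl.completeSpace_coe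
  -- decompose w
  have hw : w ∈ S := by
    have hS : Sᗮ = ⊥ := by
      rw [Submodule.eq_bot_iff]
      intro z hz
      -- z is orthogonal to all U y G
      have hy : ∀ y, U y G ∈ S := by
        intro y
        rw [mem_measCoeff, Measure.restrict_univ]
        have h1 : (fun x => ⟪U y G, U x G⟫_ℂ) = (fun x => ⟪G, U x G⟫_ℂ) ∘ (fun x => x + -y) := by
          funext x
          simp only [Function.comp]
          rw [hU.inner_left, ← hU.add]
          congr 3; ring
        rw [h1]
        exact hG.comp_quasiMeasurePreserving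
          (measurePreserving_add_right volume (-y)).quasiMeasurePreserving
      have hzS : z ∈ S := by
        rw [mem_measCoeff]
        have h1 : (fun x => ⟪z, U x G⟫_ℂ) = fun _ => 0 := by
          funext x
          exact (Submodule.mem_orthogonal' S z).1 hz _ (hy x)
        rw [h1]
        exact aemeasurable_const
      exact inner_self_eq_zero.1 ((Submodule.mem_orthogonal S z).1 hz z hzS)
    have : S = ⊤ := (Submodule.orthogonal_eq_bot_iff).1 hS
    rw [this]; trivial
  have := mem_measCoeff.1 hw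
  rwa [Measure.restrict_univ] at this

/-- Main lemma. If `v` is orthogonal to all vectors with measurable coefficients and
`x ↦ ⟪u, U x v⟫` is measurable on the half line then it vanishes there. -/
theorem vanish_of_orth [CompleteSpace H] {U : ℝ → H →L[ℂ] H} (hU : Rep U) {u v : H}
    (hu : u ∈ (Hm U)ᗮ)
    (hm : AEMeasurable (fun x => ⟪u, U x v⟫_ℂ) (volume.restrict (Set.Ioi 0))) :
    ∀ s : ℝ, 0 ≤ s → ⟪u, U s v⟫_ℂ = 0 := by
  let W : Submodule ℂ H := (Hm U)ᗮ ⊓ measCoeff U v (Set.Ioi 0)
  have hWcl : IsClosed (W : Set H) :=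
    (Submodule.isClosed_orthogonal _).inter (measCoeff_closed U v (Set.Ioi 0))
  have hcomplete : CompleteSpace W := hWcl.completeSpace_coe
  have huW : u ∈ W := ⟨hu, hm⟩
  -- invariance
  have hinv : ∀ t : ℝ, 0 ≤ t → ∀ w ∈ W, U (-t) w ∈ W := by
    intro t ht w hw
    refine ⟨orth_invariant hU hw.1 _, ?_⟩
    show AEMeasurable (fun x => ⟪U (-t) w, U x v⟫_ℂ) (volume.restrict (Set.Ioi 0))
    have h1 : (fun x => ⟪U (-t) w, U x v⟫_ℂ) = (fun x => ⟪w, U x v⟫_ℂ) ∘ (fun x => x + t) := by
      funext x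
      simp only [Function.comp]
      rw [hU.inner_left, neg_neg, ← hU.add, add_comm]
    rw [h1]
    have h2 : Measure.QuasiMeasurePreserving (fun x : ℝ => x + t)
        (volume.restrict (Set.Ioi 0)) (volume.restrict (Set.Ioi 0)) := by
      refine Measure.QuasiMeasurePreserving.restrict
        (measurePreserving_add_right volume t).quasiMeasurePreserving ?_
      intro x hx
      simp only [Set.mem_Ioi] at *
      linarith
    exact (mem_measCoeff.1 hw.2).comp_quasiMeasurePreserving h2
  intro s hs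
  -- the projection
  let G : H := W.starProjection (U s v)
  have hGW : G ∈ W := Submodule.starProjection_apply_mem W (U s v)
  have hk : U s v - G ∈ Wᗮ := Submodule.sub_starProjection_mem_orthogonal (U s v)
  have hG0 : G = 0 := by
    have hdiag : ∀ x : ℝ, 0 ≤ x → ⟪G, U x G⟫_ℂ = ⟪G, U (x + s) v⟫_ℂ := by
      intro x hx
      have h1 : ⟪G, U x (U s v - G)⟫_ℂ = 0 := by
        rw [hU.inner_right]
        exact (Submodule.mem_orthogonal W _).1 hk _ (hinv x hx G hGW)
      rw [map_sub, inner_sub_right, sub_eq_zero] at h1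
      rw [hU.add, h1]
    have hmeas : AEMeasurable (fun x => ⟪G, U x G⟫_ℂ) (volume.restrict (Set.Ioi 0)) := by
      have h3 : AEMeasurable (fun x => ⟪G, U (x + s) v⟫_ℂ) (volume.restrict (Set.Ioi 0)) := by
        have h2 : Measure.QuasiMeasurePreserving (fun x : ℝ => x + s)
            (volume.restrict (Set.Ioi 0)) (volume.restrict (Set.Ioi 0)) := by
          refine Measure.QuasiMeasurePreserving.restrict
            (measurePreserving_add_right volume s).quasiMeasurePreserving ?_
          intro x hx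
          simp only [Set.mem_Ioi] at *
          linarith
        exact (mem_measCoeff.1 hGW.2).comp_quasiMeasurePreserving h2
      refine h3.congr ?_
      filter_upwards [ae_restrict_mem measurableSet_Ioi] with x hx
      exact (hdiag x (le_of_lt hx)).symm
    have hmeas2 : AEMeasurable (fun x => ⟪G, U x G⟫_ℂ) (volume.restrict (Set.Iio 0)) := by
      have h2 : Measure.QuasiMeasurePreserving (fun x : ℝ => -x)
          (volume.restrict (Set.Iio 0)) (volume.restrict (Set.Ioi 0)) := by
        refine Measure.QuasiMeasurePreserving.restrict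
          (Measure.measurePreserving_neg volume).quasiMeasurePreserving ?_
        intro x hx
        simp only [Set.mem_Ioi, Set.mem_Iio] at *
        linarith
      have h3 := (hmeas.comp_quasiMeasurePreserving h2)
      have h4 : (fun x => ⟪G, U x G⟫_ℂ) =
          fun x => (starRingEnd ℂ) (((fun x => ⟪G, U x G⟫_ℂ) ∘ fun x => -x) x) := by
        funext x
        simp only [Function.comp]
        exact hU.conj_coeff x G
      rw [h4]
      exact (Complex.continuous_conj.measurable).comp_aemeasurable h3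
    have hall : AEMeasurable (fun x => ⟪G, U x G⟫_ℂ) volume := by
      have h5 : AEMeasurable (fun x => ⟪G, U x G⟫_ℂ)
          (volume.restrict (Set.Ioi (0:ℝ) ∪ Set.Iio (0:ℝ))) := by
        exact aemeasurable_union_iff.2 ⟨hmeas, hmeas2⟩
      have h6 : (volume : Measure ℝ).restrict (Set.Ioi (0:ℝ) ∪ Set.Iio (0:ℝ)) = volume := by
        apply Measure.restrict_eq_self_of_ae_mem
        rw [Set.union_comm, Set.Iio_union_Ioi]
        simp [ae_iff]
      rwa [h6] at h5
    have hGm : G ∈ Hm U := mem_Hm_of_diag hU hall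
    exact inner_self_eq_zero.1 ((Submodule.mem_orthogonal (Hm U) G).1 hGW.1 G hGm)
  rw [hG0, sub_zero] at hk
  exact (Submodule.mem_orthogonal W _).1 hk u huW

/-- Half-line theorem. -/
theorem halfline [CompleteSpace H] {U : ℝ → H →L[ℂ] H} (hU : Rep U) (u v : H)
    (hm : AEMeasurable (fun x => ⟪u, U x v⟫_ℂ) (volume.restrict (Set.Ioi 0))) :
    ∃ u' v' : H, u' ∈ Hm U ∧ v' ∈ Hm U ∧ ∀ x : ℝ, 0 ≤ x → ⟪u, U x v⟫_ℂ = ⟪u', U x v'⟫_ℂ := by
  have hcl := Hm_closed U
  have hcomplete : CompleteSpace (Hm U) := hcl.completeSpace_coe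
  let P := (Hm U).starProjection
  let u1 : H := P u
  let v1 : H := P v
  have hu1 : u1 ∈ Hm U := Submodule.starProjection_apply_mem _ u
  have hv1 : v1 ∈ Hm U := Submodule.starProjection_apply_mem _ v
  have hu2 : u - u1 ∈ (Hm U)ᗮ := Submodule.sub_starProjection_mem_orthogonal u
  have hv2 : v - v1 ∈ (Hm U)ᗮ := Submodule.sub_starProjection_mem_orthogonal v
  have hsplit : ∀ x, ⟪u, U x v⟫_ℂ = ⟪u1, U x v1⟫_ℂ + ⟪u - u1, U x (v - v1)⟫_ℂ := by
    intro x
    have e1 : ⟪u1, U x (v - v1)⟫_ℂ = 0 := by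
      exact (Submodule.mem_orthogonal _ _).1 (orth_invariant hU hv2 x) u1 hu1
    have e2 : ⟪u - u1, U x v1⟫_ℂ = 0 := by
      exact (Submodule.mem_orthogonal' _ _).1 hu2 _ (Hm_invariant hU hv1 x)
    have e3 : u = u1 + (u - u1) := by abel
    have e4 : v = v1 + (v - v1) := by abel
    conv_lhs => rw [e3, e4]
    rw [map_add, inner_add_left, inner_add_right, inner_add_right, e1, e2]
    ring
  refine ⟨u1, v1, hu1, hv1, ?_⟩
  have hm2 : AEMeasurable (fun x => ⟪u - u1, U x (v - v1)⟫_ℂ) (volume.restrict (Set.Ioi 0)) := by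
    have : (fun x => ⟪u - u1, U x (v - v1)⟫_ℂ) = fun x => ⟪u, U x v⟫_ℂ - ⟪u1, U x v1⟫_ℂ := by
      funext x; rw [hsplit x]; ring
    rw [this]
    exact hm.sub ((hv1 u1).restrict)
  intro x hx
  rw [hsplit x, vanish_of_orth hU hu2 hm2 x hx, add_zero]

end Pool.Agent.Helper56.PD
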