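import Mathlib
import Pool.Agent.Helper56.PD.HL

open MeasureTheory Complex Filter Topology
open scoped InnerProductSpace ComplexOrder

namespace Pool.Agent.Helper56.PD

/-- scalar kernel as operator valued kernel -/
noncomputable def opKer {X : Type} (K : Matrix X X ℂ) : Matrix X X (ℂ →L[ℂ] ℂ) :=
  fun x y => (K x y) • (1 : ℂ →L[ℂ] ℂ)

theorem opKer_apply {X : Type} (K : Matrix X X ℂ) (x y : X) (v : ℂ) :
    opKer K x y v = K x y * v := by
  simp [opKer]

theorem opKer_posSemidef {X : Type} {K : Matrix X X ℂ} (hK : K.PosSemidef) :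
    (opKer K).PosSemidef := by
  refine (RKHS.posSemidef_tfae.out 0 2).2 ?_
  have hH : ∀ x y, star (K y x) = K x y := fun x y => hK.1.apply x y
  constructor
  · ext x y
    simp only [Matrix.conjTranspose_apply, opKer, star_smul, star_one]
    rw [hH]
  · intro vv
    have h1 := hK.2 vv
    have h2 : (vv.sum fun x w ↦ vv.sum fun x' w' ↦ ⟪opKer K x' x w, w'⟫_ℂ) =
        vv.sum fun i xi ↦ vv.sum fun j xj ↦ star xi * K i j * xj := by
      refine Finsupp.sum_congr fun x _ => Finsupp.sum_congr fun y _ => ?_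
      rw [opKer_apply, RCLike.inner_apply, map_mul]
      have := hH x y
      simp only [RCLike.star_def] at this
      rw [this]
      simp only [RCLike.star_def]
      ring
    rw [h2]
    exact (Complex.le_def.1 h1).1

theorem exists_kernel_space {X : Type} {K : Matrix X X ℂ} (hK : K.PosSemidef) :
    ∃ (H : Type) (_ : NormedAddCommGroup H) (_ : InnerProductSpace ℂ H) (_ : CompleteSpace H)
      (e : X → H), (∀ a b, ⟪e a, e b⟫_ℂ = K a b) ∧
        (Submodule.span ℂ (Set.range e)).topologicalClosure = ⊤ := by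
  have : Fact (opKer K).PosSemidef := ⟨opKer_posSemidef hK⟩
  refine ⟨RKHS.OfKernel (opKer K), inferInstance, inferInstance, inferInstance,
    fun x => RKHS.kerFun (RKHS.OfKernel (opKer K)) x (1:ℂ), ?_, ?_⟩
  · intro a b
    have h1 := RKHS.kernel_inner (RKHS.OfKernel (opKer K)) b a (1:ℂ) (1:ℂ)
    rw [RKHS.OfKernel.kernel_ofKernel] at h1
    rw [← h1, opKer_apply, RCLike.inner_apply, mul_one]
    have := hK.1.apply a b
    simp only [RCLike.star_def] at this
    rw [this, one_mul]
  · rw [eq_top_iff, ← RKHS.kerFun_dense (RKHS.OfKernel (opKer K))]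
    apply Submodule.topologicalClosure_mono
    rw [Submodule.span_le]
    rintro _ ⟨x, v, rfl⟩
    have : RKHS.kerFun (RKHS.OfKernel (opKer K)) x v =
        v • RKHS.kerFun (RKHS.OfKernel (opKer K)) x (1:ℂ) := by
      rw [← map_smul]; simp
    rw [this]
    exact Submodule.smul_mem _ _ (Submodule.subset_span ⟨x, rfl⟩)

theorem norm_linearCombination_eq {X : Type} {H : Type*} [NormedAddCommGroup H]
    [InnerProductSpace ℂ H] (e e' : X → H) (h : ∀ a b, ⟪e' a, e' b⟫_ℂ = ⟪e a, e b⟫_ℂ)
    (c : X →₀ ℂ) :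
    ‖Finsupp.linearCombination ℂ e' c‖ = ‖Finsupp.linearCombination ℂ e c‖ := by
  have key : ∀ e : X → H, ⟪Finsupp.linearCombination ℂ e c, Finsupp.linearCombination ℂ e c⟫_ℂ =
      c.sum fun a za => c.sum fun b zb => (starRingEnd ℂ) za * zb * ⟪e a, e b⟫_ℂ := by
    intro e
    rw [Finsupp.linearCombination_apply, Finsupp.sum_inner]
    refine Finsupp.sum_congr fun a _ => ?_
    rw [Finsupp.inner_sum]
    simp only [Finsupp.sum, inner_smul_left, inner_smul_right]
    refine Finset.sum_congr rfl fun b _ => ?_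
    ring
  have h2 : ⟪Finsupp.linearCombination ℂ e' c, Finsupp.linearCombination ℂ e' c⟫_ℂ =
      ⟪Finsupp.linearCombination ℂ e c, Finsupp.linearCombination ℂ e c⟫_ℂ := by
    rw [key, key]
    simp only [h]
  rw [inner_self_eq_norm_sq_to_K, inner_self_eq_norm_sq_to_K] at h2
  have h3 : ‖Finsupp.linearCombination ℂ e' c‖ ^ 2 = ‖Finsupp.linearCombination ℂ e c‖ ^ 2 := by
    exact_mod_cast h2
  exact (sq_eq_sq₀ (norm_nonneg _) (norm_nonneg _)).1 h3

theorem exists_isometry {X : Type} {H : Type*} [NormedAddCommGroup H]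
    [InnerProductSpace ℂ H] [CompleteSpace H] (e e' : X → H)
    (hd : (Submodule.span ℂ (Set.range e)).topologicalClosure = ⊤)
    (h : ∀ a b, ⟪e' a, e' b⟫_ℂ = ⟪e a, e b⟫_ℂ) :
    ∃ T : H →L[ℂ] H, (∀ a, T (e a) = e' a) ∧ ∀ x, ‖T x‖ ≤ ‖x‖ := by
  let E := Finsupp.linearCombination ℂ e
  let E' := Finsupp.linearCombination ℂ e'
  have hdense : DenseRange E := by
    rw [DenseRange, ← LinearMap.coe_range, Finsupp.range_linearCombination]
    rw [Submodule.dense_iff_topologicalClosure_eq_top]
    exact hd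
  have hnorm : ∀ x, ‖E' x‖ ≤ 1 * ‖E x‖ := fun x => by
    rw [one_mul]; exact (norm_linearCombination_eq e e' h x).le
  refine ⟨E'.extendOfNorm E, ?_, ?_⟩
  · intro a
    have := LinearMap.extendOfNorm_eq (f := E') (e := E) hdense ⟨1, hnorm⟩ (Finsupp.single a 1)
    simpa [E, E'] using this
  · intro x
    have := LinearMap.norm_extendOfNorm_apply_le (f := E') (e := E) hdense 1 hnorm x
    simpa using this

/-- two continuous linear maps agreeing on a total family are equal -/
theorem clm_ext {X : Type} {H : Type*} [NormedAddCommGroup H]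
    [InnerProductSpace ℂ H] (e : X → H)
    (hd : (Submodule.span ℂ (Set.range e)).topologicalClosure = ⊤) (S T : H →L[ℂ] H)
    (h : ∀ a, S (e a) = T (e a)) (x : H) : S x = T x := by
  have h1 : Dense (Submodule.span ℂ (Set.range e) : Set H) :=
    (Submodule.dense_iff_topologicalClosure_eq_top).2 hd
  have : S = T := by
    apply ContinuousLinearMap.ext_on h1
    rintro _ ⟨a, rfl⟩
    exact h a
  rw [this]

/-- Kernel space together with a unitary representation of `ℝ` coming from an action on the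
index set which leaves the kernel invariant. -/
theorem exists_rep {X : Type} {K : Matrix X X ℂ} (hK : K.PosSemidef) (act : ℝ → X → X)
    (h0 : ∀ a, act 0 a = a) (hadd : ∀ x y a, act (x + y) a = act x (act y a))
    (hinv : ∀ x a b, K (act x a) (act x b) = K a b) :
    ∃ (H : Type) (_ : NormedAddCommGroup H) (_ : InnerProductSpace ℂ H) (_ : CompleteSpace H)
      (e : X → H) (U : ℝ → H →L[ℂ] H), (∀ a b, ⟪e a, e b⟫_ℂ = K a b) ∧
        (∀ x a, U x (e a) = e (act x a)) ∧ Rep U := by
  obtain ⟨H, i1, i2, i3, e, he, hd⟩ := exists_kernel_space hK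
  have hT : ∀ x : ℝ, ∃ T : H →L[ℂ] H, (∀ a, T (e a) = e (act x a)) ∧ ∀ h, ‖T h‖ ≤ ‖h‖ := by
    intro x
    refine exists_isometry e (fun a => e (act x a)) hd ?_
    intro a b
    rw [he, he, hinv]
  choose U hU1 hU2 using hT
  have hz : ∀ h, U 0 h = h := by
    intro h
    have := clm_ext e hd (U 0) (ContinuousLinearMap.id ℂ H) (fun a => by simp [hU1, h0]) h
    simpa using this
  have ha : ∀ x y h, U (x + y) h = U x (U y h) := by
    intro x y h
    have := clm_ext e hd (U (x + y)) ((U x).comp (U y)) (fun a => by simp [hU1, hadd]) h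
    simpa using this
  have hn : ∀ x h, ‖U x h‖ = ‖h‖ := by
    intro x h
    refine le_antisymm (hU2 x h) ?_
    calc ‖h‖ = ‖U (-x) (U x h)‖ := by rw [← ha, neg_add_cancel, hz]
      _ ≤ ‖U x h‖ := hU2 _ _
  refine ⟨H, i1, i2, i3, e, U, he, hU1, ⟨hz, ha, ?_⟩⟩
  intro x g h
  let L : H →ₗᵢ[ℂ] H := ⟨(U x).toLinearMap, hn x⟩
  exact L.inner_map_map g h

end Pool.Agent.Helper56.PD
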