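import Mathlib
import Pool.Agent.Helper56.PD.HB

open MeasureTheory Complex Filter Topology
open scoped InnerProductSpace ComplexOrder

namespace Pool.Agent.Helper56.PD

/-- kernel attached to a function on the line -/
def ker (F : ℝ → ℂ) : Matrix ℝ ℝ ℂ := fun x y => F (y - x)

theorem PosType.hermitian {F : ℝ → ℂ} (hF : PosType F) (l : ℝ) :
    F (-l) = (starRingEnd ℂ) (F l) := by
  have key : ∀ a : ℂ, ‖a‖ = 1 →
      0 ≤ a * F l + (starRingEnd ℂ) a * F (-l) + 2 * F 0 := by
    intro a ha
    have h1 := hF (Finsupp.single l a + Finsupp.single (-l) ((starRingEnd ℂ) a)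
      + Finsupp.single 0 2) (by
        intro t
        rw [eSum_eq_phi, phi_add, phi_add, phi_single, phi_single, phi_single]
        rw [← conj_exp_I, ← map_mul, Complex.add_conj]
        have h2 : -1 ≤ (a * Complex.exp (Complex.I * l * t)).re := by
          have h3 : ‖a * Complex.exp (Complex.I * l * t)‖ = 1 := by
            rw [norm_mul, ha, norm_exp_I, one_mul]
          have h4 := Complex.abs_re_le_norm (a * Complex.exp (Complex.I * l * t))
          rw [h3] at h4
          linarith [(abs_le.1 h4).1]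
        have h5 : (2 * (((a * Complex.exp (Complex.I * l * t)).re : ℝ) : ℂ) +
            2 * Complex.exp (Complex.I * ((0:ℝ):ℂ) * t)) =
            ((2 * ((a * Complex.exp (Complex.I * l * t)).re + 1) : ℝ) : ℂ) := by
          push_cast; simp; ring
        have h6 : ((2 * (a * Complex.exp (Complex.I * l * t)).re : ℝ) : ℂ) =
          2 * (((a * Complex.exp (Complex.I * l * t)).re : ℝ) : ℂ) := by push_cast; ring
        rw [h6, h5]
        exact_mod_cast (by linarith : (0:ℝ) ≤ 2 * ((a * Complex.exp (Complex.I * l * t)).re + 1)))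
    rwa [phi_add, phi_add, phi_single, phi_single, phi_single] at h1
  have h0 : 0 ≤ F 0 := by
    have := hF (Finsupp.single 0 1) (by
      intro t
      rw [eSum_eq_phi, phi_single]
      simp)
    rwa [phi_single, one_mul] at this
  have h0' := (Complex.le_def.1 h0).2
  have k1 := (Complex.le_def.1 (key 1 (by simp))).2
  have k2 := (Complex.le_def.1 (key Complex.I (by simp))).2
  simp only [map_one, one_mul, Complex.add_im, Complex.mul_im, Complex.zero_im, Complex.conj_I,
    Complex.I_re, Complex.I_im, Complex.neg_re, Complex.neg_im, Complex.re_ofNat, Complex.im_ofNat]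
    at k1 k2 h0'
  apply Complex.ext
  · rw [Complex.conj_re]; linarith
  · rw [Complex.conj_im]; linarith

theorem PosType.posSemidef {F : ℝ → ℂ} (hF : PosType F) : (ker F).PosSemidef := by
  constructor
  · ext x y
    simp only [Matrix.conjTranspose_apply, ker, RCLike.star_def]
    rw [← hF.hermitian]; congr 1; ring
  · intro c
    have h1 : (c.sum fun i xi ↦ c.sum fun j xj ↦ star xi * ker F i j * xj) =
        phi F (∑ i ∈ c.support, ∑ j ∈ c.support, Finsupp.single (j - i) (star (c i) * c j)) := by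
      rw [phi_finsum]
      unfold Finsupp.sum
      refine Finset.sum_congr rfl fun i _ => ?_
      rw [phi_finsum]
      refine Finset.sum_congr rfl fun j _ => ?_
      rw [phi_single]
      show star (c i) * F (j - i) * c j = _
      ring
    rw [h1]
    apply hF
    intro t
    have h2 : eSum (∑ i ∈ c.support, ∑ j ∈ c.support, Finsupp.single (j - i) (star (c i) * c j)) t =
        (starRingEnd ℂ) (eSum c t) * eSum c t := by
      rw [eSum_eq_phi, phi_finsum]
      unfold eSum Finsupp.sum
      rw [map_sum, Finset.sum_mul]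
      refine Finset.sum_congr rfl fun i _ => ?_
      rw [phi_finsum, Finset.mul_sum]
      refine Finset.sum_congr rfl fun j _ => ?_
      rw [phi_single, map_mul, conj_exp_I, RCLike.star_def]
      have : Complex.exp (Complex.I * ((j - i : ℝ) : ℂ) * t) =
        Complex.exp (Complex.I * ((-i : ℝ) : ℂ) * t) * Complex.exp (Complex.I * j * t) := by
        rw [← Complex.exp_add]; congr 1; push_cast; ring
      rw [this]; ring
    rw [h2, Complex.conj_mul']
    exact_mod_cast (sq_nonneg ‖eSum c t‖)

theorem intervalIntegral_exp (l : ℝ) (hl : l ≠ 0) (T : ℝ) :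
    ∫ t in (0:ℝ)..T, Complex.exp (Complex.I * l * t) =
      (Complex.exp (Complex.I * l * T) - 1) / (Complex.I * l) := by
  have hc : Complex.I * (l : ℂ) ≠ 0 := by
    simp [hl]
  have := integral_exp_mul_complex (a := 0) (b := T) hc
  simpa using this

theorem tendsto_mean_exp (l : ℝ) (hl : l ≠ 0) :
    Tendsto (fun n : ℕ => ((n:ℂ) + 1)⁻¹ * ∫ t in (0:ℝ)..((n:ℝ) + 1), Complex.exp (Complex.I * l * t))
      atTop (𝓝 0) := by
  have h1 : Tendsto (fun n : ℕ => (1 / ((n : ℝ) + 1)) * (2 / |l|)) atTop (𝓝 (0 * (2 / |l|))) :=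
    tendsto_one_div_add_atTop_nhds_zero_nat.mul_const _
  rw [zero_mul] at h1
  refine squeeze_zero_norm (fun n => ?_) h1
  rw [intervalIntegral_exp l hl, norm_mul, norm_div, norm_inv]
  have e1 : ‖(n:ℂ) + 1‖ = (n:ℝ) + 1 := by
    have : ((n:ℂ) + 1) = (((n:ℝ) + 1 : ℝ) : ℂ) := by push_cast; ring
    rw [this, Complex.norm_real, Real.norm_eq_abs, abs_of_nonneg (by positivity)]
  have e2 : ‖Complex.I * (l:ℂ)‖ = |l| := by simp
  rw [e1, e2, one_div]
  refine mul_le_mul_of_nonneg_left ?_ (by positivity)
  refine div_le_div_of_nonneg_right ?_ (abs_nonneg _)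
  refine (norm_sub_le _ _).trans ?_
  have h3 := norm_exp_I l ((n:ℝ) + 1)
  rw [h3]
  norm_num

theorem nonneg_of_tendsto {u : ℕ → ℂ} {z : ℂ} (h : Tendsto u atTop (𝓝 z)) (hu : ∀ n, 0 ≤ u n) :
    0 ≤ z := by
  have h1 : Tendsto (fun n => (u n).re) atTop (𝓝 z.re) := (Complex.continuous_re.tendsto _).comp h
  have h2 : Tendsto (fun n => (u n).im) atTop (𝓝 z.im) := (Complex.continuous_im.tendsto _).comp h
  have h3 : 0 ≤ z.re := ge_of_tendsto' h1 fun n => (Complex.le_def.1 (hu n)).1
  have h4 : z.im = 0 := by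
    have : (fun n => (u n).im) = fun _ => 0 := by
      funext n; exact ((Complex.le_def.1 (hu n)).2).symm
    rw [this] at h2
    exact (tendsto_nhds_unique h2 tendsto_const_nhds)
  exact Complex.le_def.2 ⟨h3, h4.symm⟩

/-- constant coefficient of a nonnegative exponential sum -/
theorem coeff_zero_nonneg (c : ℝ →₀ ℂ) (h : ∀ t, 0 ≤ eSum c t) : 0 ≤ c 0 := by
  have hint : ∀ (l : ℝ) (T : ℝ), IntervalIntegrable (fun t : ℝ => c l * Complex.exp (Complex.I * l * t))
      volume 0 T := by
    intro l T
    apply Continuous.intervalIntegrable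
    fun_prop
  have h1 : ∀ T : ℝ, ∫ t in (0:ℝ)..T, eSum c t =
      ∑ l ∈ c.support, c l * ∫ t in (0:ℝ)..T, Complex.exp (Complex.I * l * t) := by
    intro T
    unfold eSum Finsupp.sum
    rw [intervalIntegral.integral_finsetSum (fun l _ => hint l T)]
    refine Finset.sum_congr rfl fun l _ => ?_
    rw [intervalIntegral.integral_const_mul]
  have h2 : Tendsto (fun n : ℕ => ((n:ℂ) + 1)⁻¹ * ∫ t in (0:ℝ)..((n:ℝ) + 1), eSum c t)
      atTop (𝓝 (∑ l ∈ c.support, if l = 0 then c l else 0)) := by
    have h3 : (fun n : ℕ => ((n:ℂ) + 1)⁻¹ * ∫ t in (0:ℝ)..((n:ℝ) + 1), eSum c t) =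
        fun n : ℕ => ∑ l ∈ c.support, c l *
          (((n:ℂ) + 1)⁻¹ * ∫ t in (0:ℝ)..((n:ℝ) + 1), Complex.exp (Complex.I * l * t)) := by
      funext n
      rw [h1, Finset.mul_sum]
      refine Finset.sum_congr rfl fun l _ => ?_
      ring
    rw [h3]
    refine tendsto_finsetSum _ fun l _ => ?_
    by_cases hl : l = 0
    · subst hl
      simp only [if_true]
      have : (fun n : ℕ => c 0 * (((n:ℂ) + 1)⁻¹ * ∫ t in (0:ℝ)..((n:ℝ) + 1),
          Complex.exp (Complex.I * ((0:ℝ):ℂ) * t))) = fun _ => c 0 := by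
        funext n
        have hn : (n:ℂ) + 1 ≠ 0 := by exact_mod_cast Nat.succ_ne_zero n
        simp
        rw [inv_mul_cancel₀ hn, mul_one]
      rw [this]
      exact tendsto_const_nhds
    · rw [if_neg hl]
      have := (tendsto_mean_exp l hl).const_mul (c l)
      rwa [mul_zero] at this
  have h4 : (∑ l ∈ c.support, if l = 0 then c l else 0) = c 0 := by
    rw [Finset.sum_ite_eq' c.support 0 (fun l => c l)]
    by_cases h0 : (0:ℝ) ∈ c.support
    · rw [if_pos h0]
    · rw [if_neg h0]
      exact (Finsupp.notMem_support_iff.1 h0).symm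
  rw [h4] at h2
  refine nonneg_of_tendsto h2 fun n => ?_
  have hreal : ∀ t, eSum c t = (((eSum c t).re : ℝ) : ℂ) := by
    intro t
    apply Complex.ext
    · simp
    · simp only [Complex.ofReal_im]; exact ((Complex.le_def.1 (h t)).2).symm
  have h5 : ∫ t in (0:ℝ)..((n:ℝ) + 1), eSum c t =
      ((∫ t in (0:ℝ)..((n:ℝ) + 1), (eSum c t).re : ℝ) : ℂ) := by
    rw [← intervalIntegral.integral_ofReal]
    congr 1
    funext t; exact hreal t
  rw [h5]
  have h6 : 0 ≤ ∫ t in (0:ℝ)..((n:ℝ) + 1), (eSum c t).re := by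
    apply intervalIntegral.integral_nonneg (by positivity)
    intro t _
    exact (Complex.le_def.1 (h t)).1
  have h7 : (((n:ℂ) + 1)⁻¹ * ((∫ t in (0:ℝ)..((n:ℝ) + 1), (eSum c t).re : ℝ) : ℂ)) =
      ((((n:ℝ) + 1)⁻¹ * (∫ t in (0:ℝ)..((n:ℝ) + 1), (eSum c t).re) : ℝ) : ℂ) := by
    push_cast; ring
  rw [h7]
  exact_mod_cast mul_nonneg (by positivity) h6

/-- the box set -/
noncomputable def boxSet (L : Finset ℝ) (n : ℕ) : Finset ℝ :=
  (Fintype.piFinset (fun _ : L => Finset.range (n + 1))).image
    (fun m => ∑ l : L, (m l : ℝ) * (l : ℝ))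

theorem boxSet_card (L : Finset ℝ) (n : ℕ) : (boxSet L n).card ≤ (n + 1) ^ L.card := by
  unfold boxSet
  refine Finset.card_image_le.trans ?_
  simp

theorem boxSet_mono (L : Finset ℝ) (n : ℕ) : boxSet L n ⊆ boxSet L (n + 1) := by
  unfold boxSet
  apply Finset.image_subset_image
  intro m hm
  rw [Fintype.mem_piFinset] at *
  intro a
  have := hm a
  rw [Finset.mem_range] at *
  omega

theorem boxSet_nonempty (L : Finset ℝ) (n : ℕ) : (boxSet L n).Nonempty := by
  unfold boxSet
  refine ⟨_, Finset.mem_image_of_mem _ (a := fun _ => 0) ?_⟩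
  rw [Fintype.mem_piFinset]
  intro a; simp

theorem boxSet_add (L : Finset ℝ) (n : ℕ) {a l : ℝ} (ha : a ∈ boxSet L n) (hl : l ∈ L) :
    a + l ∈ boxSet L (n + 1) := by
  classical
  unfold boxSet at *
  rw [Finset.mem_image] at *
  obtain ⟨m, hm, rfl⟩ := ha
  rw [Fintype.mem_piFinset] at hm
  refine ⟨fun x => m x + if x = ⟨l, hl⟩ then 1 else 0, ?_, ?_⟩
  · rw [Fintype.mem_piFinset]
    intro x
    have := hm x
    rw [Finset.mem_range] at *
    split_ifs <;> omega
  · push_cast
    simp only [add_mul, Finset.sum_add_distrib, ite_mul, one_mul, zero_mul]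
    rw [Finset.sum_ite_eq' Finset.univ (⟨l, hl⟩ : L) (fun x => (x : ℝ))]
    simp

theorem exists_folner (L : Finset ℝ) (ε : ℝ) (hε : 0 < ε) :
    ∃ G : Finset ℝ, G.Nonempty ∧ ∀ l ∈ L,
      (1 - ε) * (G.card : ℝ) ≤ ((G.filter (fun a => a + l ∈ G)).card : ℝ) := by
  classical
  have hex : ∃ n, ((boxSet L (n + 1)).card : ℝ) ≤ (1 + ε) * ((boxSet L n).card : ℝ) := by
    by_contra hcon
    push Not at hcon
    have hgrow : ∀ n, (1 + ε) ^ n ≤ ((boxSet L n).card : ℝ) := by
      intro n
      induction n with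
      | zero =>
        have := (boxSet_nonempty L 0).card_pos
        simp only [pow_zero]
        exact_mod_cast this
      | succ n ih =>
        rw [pow_succ, mul_comm]
        refine (mul_le_mul_of_nonneg_left ih (by linarith)).trans (hcon n).le
    have hub : ∀ n : ℕ, (1 + ε) ^ n ≤ ((n : ℝ) + 1) ^ L.card := by
      intro n
      refine (hgrow n).trans ?_
      exact_mod_cast boxSet_card L n
    have ht := tendsto_pow_const_div_const_pow_of_one_lt L.card (r := 1 + ε) (by linarith)
    have ht2 : Tendsto (fun n : ℕ => (((n + 1 : ℕ) : ℝ)) ^ L.card / (1 + ε) ^ (n + 1)) atTop (𝓝 0) :=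
      (tendsto_add_atTop_iff_nat 1).2 ht
    have hpos : (0:ℝ) < 1 / (1 + ε) := by positivity
    have hev := (tendsto_order.1 ht2).2 _ hpos
    obtain ⟨n, hn⟩ := hev.exists
    have h1 := hub n
    have h2 : (0:ℝ) < (1 + ε) ^ n := by positivity
    rw [div_lt_div_iff₀ (by positivity) (by positivity)] at hn
    have h3 : ((n + 1 : ℕ) : ℝ) ^ L.card * (1 + ε) < (1 + ε) ^ n * (1 + ε) := by
      calc _ < 1 * (1 + ε) ^ (n + 1) := hn
        _ = _ := by ring
    have h4 := lt_of_mul_lt_mul_right h3 (by linarith)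
    push_cast at h4
    linarith
  obtain ⟨n, hn⟩ := hex
  refine ⟨boxSet L n, boxSet_nonempty L n, ?_⟩
  intro l hl
  have h1 : (boxSet L n).card = ((boxSet L n).filter (fun a => a + l ∈ boxSet L n)).card +
      ((boxSet L n).filter (fun a => ¬ (a + l ∈ boxSet L n))).card :=
    (Finset.card_filter_add_card_filter_not _).symm
  have h2 : ((boxSet L n).filter (fun a => ¬ (a + l ∈ boxSet L n))).card ≤
      (boxSet L (n + 1) \ boxSet L n).card := by
    apply Finset.card_le_card_of_injOn (fun a => a + l)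
    · intro a ha
      have ha' := Finset.mem_filter.1 (Finset.mem_coe.1 ha)
      exact Finset.mem_coe.2 (Finset.mem_sdiff.2 ⟨boxSet_add L n ha'.1 hl, ha'.2⟩)
    · intro a _ b _ hab
      exact add_right_cancel hab
  have h3 : (boxSet L (n + 1) \ boxSet L n).card + (boxSet L n).card = (boxSet L (n + 1)).card :=
    Finset.card_sdiff_add_card_eq_card (boxSet_mono L n)
  have h1' : ((boxSet L n).card : ℝ) = (((boxSet L n).filter (fun a => a + l ∈ boxSet L n)).card : ℝ) +
      (((boxSet L n).filter (fun a => ¬ (a + l ∈ boxSet L n))).card : ℝ) := by exact_mod_cast h1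
  have h2' : (((boxSet L n).filter (fun a => ¬ (a + l ∈ boxSet L n))).card : ℝ) ≤
      ((boxSet L (n + 1) \ boxSet L n).card : ℝ) := by exact_mod_cast h2
  have h3' : ((boxSet L (n + 1) \ boxSet L n).card : ℝ) + ((boxSet L n).card : ℝ) =
    ((boxSet L (n + 1)).card : ℝ) := by exact_mod_cast h3
  linarith

theorem posType_of_posSemidef {F : ℝ → ℂ} (hF : (ker F).PosSemidef) : PosType F := by
  classical
  intro c hc
  -- approximants
  have key : ∀ ε : ℝ, 0 < ε → ∃ w : ℝ → ℝ, (∀ l ∈ c.support, 1 - ε ≤ w l ∧ w l ≤ 1) ∧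
      0 ≤ ∑ l ∈ c.support, c l * F l * (w l : ℂ) := by
    intro ε hε
    obtain ⟨G, hG, hG2⟩ := exists_folner c.support ε hε
    have hGpos : (0:ℝ) < G.card := by exact_mod_cast hG.card_pos
    refine ⟨fun l => ((G.filter (fun a => a + l ∈ G)).card : ℝ) / G.card, ?_, ?_⟩
    · intro l hl
      constructor
      · rw [le_div_iff₀ hGpos]; exact hG2 l hl
      · rw [div_le_one hGpos]
        exact_mod_cast Finset.card_filter_le _ _
    · let r : ℝ →₀ ℂ := ∑ a ∈ G, ∑ b ∈ G, ∑ l ∈ c.support,
        Finsupp.single (l + a - b) (c l * F (b - a))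
      have hr : ∀ t, 0 ≤ eSum r t := by
        intro t
        -- the positive definite sum
        let x : ℝ →₀ ℂ := ∑ a ∈ G, Finsupp.single a (Complex.exp (Complex.I * ((-a : ℝ) : ℂ) * t))
        have hS : 0 ≤ ∑ a ∈ G, ∑ b ∈ G, (starRingEnd ℂ) (Complex.exp (Complex.I * ((-a : ℝ) : ℂ) * t))
            * F (b - a) * Complex.exp (Complex.I * ((-b : ℝ) : ℂ) * t) := by
          let y : ℝ →₀ ℂ := Finsupp.onFinset G
            (fun a => if a ∈ G then Complex.exp (Complex.I * ((-a : ℝ) : ℂ) * t) else 0) (by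
              intro a ha
              by_contra h
              simp [h] at ha)
          have h1 := hF.2 y
          have h2 : (y.sum fun i xi ↦ y.sum fun j xj ↦ star xi * ker F i j * xj) =
              ∑ a ∈ G, ∑ b ∈ G, (starRingEnd ℂ) (Complex.exp (Complex.I * ((-a : ℝ) : ℂ) * t))
            * F (b - a) * Complex.exp (Complex.I * ((-b : ℝ) : ℂ) * t) := by
            rw [Finsupp.onFinset_sum _ (by intro a; simp)]
            refine Finset.sum_congr rfl fun a ha => ?_
            rw [Finsupp.onFinset_sum _ (by intro a; simp)]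
            refine Finset.sum_congr rfl fun b hb => ?_
            rw [if_pos ha, if_pos hb]
            rfl
          rw [← h2]; exact h1
        have h3 : eSum r t = eSum c t * ∑ a ∈ G, ∑ b ∈ G,
            (starRingEnd ℂ) (Complex.exp (Complex.I * ((-a : ℝ) : ℂ) * t))
            * F (b - a) * Complex.exp (Complex.I * ((-b : ℝ) : ℂ) * t) := by
          simp only [r]
          rw [eSum_eq_phi, phi_finsum, Finset.mul_sum]
          refine Finset.sum_congr rfl fun a _ => ?_
          rw [phi_finsum, Finset.mul_sum]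
          refine Finset.sum_congr rfl fun b _ => ?_
          rw [phi_finsum]
          unfold eSum Finsupp.sum
          rw [Finset.sum_mul]
          refine Finset.sum_congr rfl fun l _ => ?_
          rw [phi_single, conj_exp_I]
          have : Complex.exp (Complex.I * ((l + a - b : ℝ) : ℂ) * t) =
              Complex.exp (Complex.I * l * t) * Complex.exp (Complex.I * ((- -a : ℝ) : ℂ) * t) *
              Complex.exp (Complex.I * ((-b : ℝ) : ℂ) * t) := by
            rw [← Complex.exp_add, ← Complex.exp_add]; congr 1; push_cast; ring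
          rw [this]; ring
        rw [h3]
        exact mul_nonneg (hc t) hS
      have h0 := coeff_zero_nonneg r hr
      have h1 : r 0 = ∑ l ∈ c.support, c l * F l * ((G.filter (fun a => a + l ∈ G)).card : ℂ) := by
        have e1 : r 0 = ∑ a ∈ G, ∑ b ∈ G, ∑ l ∈ c.support,
            if b = a + l then c l * F l else 0 := by
          simp only [r, Finsupp.finsetSum_apply]
          refine Finset.sum_congr rfl fun a _ => Finset.sum_congr rfl fun b _ =>
            Finset.sum_congr rfl fun l _ => ?_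
          rw [Finsupp.single_apply]
          by_cases h : b = a + l
          · rw [if_pos h, if_pos (by rw [h]; ring)]
            congr 2; rw [h]; ring
          · rw [if_neg h, if_neg]
            intro h'; apply h; linarith
        rw [e1]
        have e2 : ∀ a, ∑ b ∈ G, ∑ l ∈ c.support, (if b = a + l then c l * F l else 0) =
            ∑ l ∈ c.support, if a + l ∈ G then c l * F l else 0 := by
          intro a
          rw [Finset.sum_comm]
          refine Finset.sum_congr rfl fun l _ => ?_
          rw [Finset.sum_ite_eq' G (a + l) (fun _ => c l * F l)]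
        simp only [e2]
        rw [Finset.sum_comm]
        refine Finset.sum_congr rfl fun l _ => ?_
        rw [← Finset.sum_filter, Finset.sum_const, nsmul_eq_mul, mul_comm]
      rw [h1] at h0
      have h2 : ∑ l ∈ c.support, c l * F l *
          ((((G.filter (fun a => a + l ∈ G)).card : ℝ) / G.card : ℝ) : ℂ) =
          (∑ l ∈ c.support, c l * F l * ((G.filter (fun a => a + l ∈ G)).card : ℂ)) *
            (((G.card : ℝ)⁻¹ : ℝ) : ℂ) := by
        rw [Finset.sum_mul]
        refine Finset.sum_congr rfl fun l _ => ?_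
        push_cast
        rw [div_eq_mul_inv]; ring
      rw [h2]
      refine mul_nonneg h0 ?_
      exact_mod_cast (by positivity : (0:ℝ) ≤ (G.card : ℝ)⁻¹)
  choose! w hw1 hw2 using key
  let u : ℕ → ℂ := fun n => ∑ l ∈ c.support, c l * F l * (w (1 / ((n:ℝ) + 1)) l : ℂ)
  have hlim : Tendsto u atTop (𝓝 (phi F c)) := by
    unfold phi Finsupp.sum
    refine tendsto_finsetSum _ fun l hl => ?_
    have h1 : Tendsto (fun n : ℕ => w (1 / ((n:ℝ) + 1)) l) atTop (𝓝 1) := by
      have h2 : Tendsto (fun n : ℕ => 1 - 1 / ((n:ℝ) + 1)) atTop (𝓝 (1 - 0)) :=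
        tendsto_const_nhds.sub tendsto_one_div_add_atTop_nhds_zero_nat
      rw [sub_zero] at h2
      refine tendsto_of_tendsto_of_tendsto_of_le_of_le h2 tendsto_const_nhds ?_ ?_
      · intro n; exact (hw1 _ (by positivity) l hl).1
      · intro n; exact (hw1 _ (by positivity) l hl).2
    have h3 : Tendsto (fun n : ℕ => ((w (1 / ((n:ℝ) + 1)) l : ℝ) : ℂ)) atTop (𝓝 ((1:ℝ):ℂ)) :=
      (Complex.continuous_ofReal.tendsto _).comp h1
    have h4 := h3.const_mul (c l * F l)
    simpa using h4
  exact nonneg_of_tendsto hlim fun n => hw2 _ (by positivity)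

/-- boundedness of the functional of a function of positive type -/
theorem PosType.bound {F : ℝ → ℂ} (hF : PosType F) (c : ℝ →₀ ℂ) (B : ℝ)
    (hB : ∀ t, ‖eSum c t‖ ≤ B) : ‖phi F c‖ ≤ (F 0).re * B := by
  -- rotate
  obtain ⟨ω, hω, hω2⟩ : ∃ ω : ℂ, ‖ω‖ = 1 ∧ ω * phi F c = (‖phi F c‖ : ℂ) := by
    by_cases h0 : phi F c = 0
    · exact ⟨1, by simp, by simp [h0]⟩
    · refine ⟨(starRingEnd ℂ) (phi F c) / ‖phi F c‖, ?_, ?_⟩
      · rw [norm_div, RCLike.norm_conj, Complex.norm_real, norm_norm]
        exact div_self (norm_ne_zero_iff.2 h0)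
      · have h1 : (‖phi F c‖ : ℂ) ≠ 0 := by
          exact_mod_cast (norm_ne_zero_iff.2 h0)
        rw [div_mul_eq_mul_div, Complex.conj_mul', sq, mul_div_assoc, div_self h1, mul_one]
  let d := ω • c
  let e := Finsupp.single (0:ℝ) (B:ℂ) - (1/2 : ℂ) • (d + cstar d)
  have he : ∀ t, eSum e t = ((B - (eSum d t).re : ℝ) : ℂ) := by
    intro t
    rw [eSum_eq_phi, phi_sub, phi_smul, phi_add, ← eSum_eq_phi (cstar d) t, ← eSum_eq_phi d t,
      eSum_cstar, Complex.add_conj, phi_single]
    push_cast; simp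
  have h1 : 0 ≤ phi F e := by
    apply hF
    intro t
    rw [he]
    have h2 : (eSum d t).re ≤ B := by
      refine (Complex.re_le_norm _).trans ?_
      have : eSum d t = ω * eSum c t := by rw [eSum_eq_phi, phi_smul]; rfl
      rw [this, norm_mul, hω, one_mul]
      exact hB t
    exact_mod_cast (by linarith : (0:ℝ) ≤ B - (eSum d t).re)
  have h2 : phi F (cstar d) = (starRingEnd ℂ) (phi F d) := by
    rw [phi_cstar]
    unfold phi
    rw [map_finsuppSum]
    refine Finsupp.sum_congr fun l _ => ?_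
    rw [map_mul, hF.hermitian l]
  have h3 : phi F e = B * F 0 - ((phi F d).re : ℂ) := by
    rw [phi_sub, phi_smul, phi_add, h2, Complex.add_conj, phi_single]
    push_cast; ring
  have h4 : phi F d = (‖phi F c‖ : ℂ) := by rw [phi_smul, hω2]
  rw [h3, h4] at h1
  have h5 := (Complex.le_def.1 h1).1
  simp at h5
  linarith

end Pool.Agent.Helper56.PD
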