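import Mathlib
import Pool.Agent.Helper56.PD.HL
import Pool.Agent.Helper56.PD.Kernel
import Pool.Agent.Helper56.PD.Pos

open MeasureTheory Complex Filter Topology
open scoped InnerProductSpace ComplexOrder

namespace Pool.Agent.Helper56.PD

theorem posSemidef_inner {X : Type*} {E : Type*} [NormedAddCommGroup E] [InnerProductSpace ℂ E]
    (v : X → E) : Matrix.PosSemidef (Matrix.of fun x y : X => ⟪v x, v y⟫_ℂ) := by
  constructor
  · ext x y
    simp only [Matrix.conjTranspose_apply, Matrix.of_apply, RCLike.star_def, inner_conj_symm]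
  · intro c
    have h : (c.sum fun i xi ↦ c.sum fun j xj ↦
        star xi * (Matrix.of fun x y : X => ⟪v x, v y⟫_ℂ) i j * xj) =
        ⟪c.sum fun i xi => xi • v i, c.sum fun i xi => xi • v i⟫_ℂ := by
      unfold Finsupp.sum
      rw [sum_inner]
      refine Finset.sum_congr rfl fun i _ => ?_
      rw [inner_sum]
      refine Finset.sum_congr rfl fun j _ => ?_
      rw [inner_smul_left, inner_smul_right, RCLike.star_def]
      show (starRingEnd ℂ) (c i) * ⟪v i, v j⟫_ℂ * c j = _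
      ring
    rw [h]
    refine Complex.le_def.2 ⟨?_, ?_⟩
    · exact inner_self_nonneg (𝕜 := ℂ)
    · exact (inner_self_im (𝕜 := ℂ) (c.sum fun i xi => xi • v i)).symm

/-- triangle function of base `(-2a, 2a)` -/
noncomputable def tri (a : ℝ) (y : ℝ) : ℂ := ((max 0 (2 * a - |y|) / (2 * a) : ℝ) : ℂ)

theorem tri_posSemidef {a : ℝ} (ha : 0 < a) : (ker (tri a)).PosSemidef := by
  let v : ℝ → Lp ℂ 2 (volume : Measure ℝ) := fun x =>
    ((1 / Real.sqrt (2 * a) : ℝ) : ℂ) • indicatorConstLp 2 (measurableSet_Icc (a := x) (b := x + 2 * a))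
      measure_Icc_lt_top.ne (1 : ℂ)
  have h := posSemidef_inner v
  have h2 : (Matrix.of fun x y => ⟪v x, v y⟫_ℂ) = ker (tri a) := by
    ext x y
    rw [Matrix.of_apply]
    simp only [v, ker, tri]
    rw [inner_smul_left, inner_smul_right,
      L2.inner_indicatorConstLp_one_indicatorConstLp_one _ _ measure_Icc_lt_top.ne
        measure_Icc_lt_top.ne]
    rw [Set.Icc_inter_Icc, Real.volume_real_Icc]
    rw [Complex.conj_ofReal]
    have h3 : min (x + 2 * a) (y + 2 * a) - max x y = 2 * a - |y - x| := by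
      rcases le_total x y with hxy | hxy
      · rw [min_eq_left (by linarith), max_eq_right hxy, abs_of_nonneg (by linarith)]; ring
      · rw [min_eq_right (by linarith), max_eq_left hxy, abs_of_nonpos (by linarith)]; ring
    have h4 : (1 / Real.sqrt (2 * a)) * ((1 / Real.sqrt (2 * a)) * max 0 (2 * a - |y - x|)) =
        max 0 (2 * a - |y - x|) / (2 * a) := by
      have h5 : Real.sqrt (2 * a) * Real.sqrt (2 * a) = 2 * a := Real.mul_self_sqrt (by linarith)
      have h6 : Real.sqrt (2 * a) ≠ 0 := (Real.sqrt_pos.2 (by linarith)).ne'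
      field_simp
      rw [sq, h5]
    show ((1 / Real.sqrt (2 * a) : ℝ) : ℂ) * (((1 / Real.sqrt (2 * a) : ℝ) : ℂ) *
      ((max (min (x + 2 * a) (y + 2 * a) - max x y) 0 : ℝ) : ℂ)) = _
    rw [h3, max_comm, ← h4]
    push_cast
    ring
  rw [← h2]; exact h

theorem tri_left {a x : ℝ} (ha : 0 < a) (hx : x ≤ -a) : tri a (x - a) = 0 := by
  unfold tri
  rw [abs_of_nonpos (by linarith), max_eq_left (by linarith)]
  simp

theorem tri_mid {a x : ℝ} (ha : 0 < a) (h1 : -a < x) (h2 : x < a) :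
    tri a (x - a) = (((x + a) / (2 * a) : ℝ) : ℂ) := by
  unfold tri
  rw [abs_of_nonpos (by linarith), max_eq_right (by linarith)]
  congr 2; ring

theorem tri_continuous (a : ℝ) : Continuous (tri a) := by
  unfold tri
  exact Complex.continuous_ofReal.comp (by fun_prop)

theorem ker_one_posSemidef : (ker (fun _ => (1 : ℂ))).PosSemidef := by
  have h := posSemidef_inner (X := ℝ) (fun _ => (1 : ℂ))
  have h2 : (Matrix.of fun x y : ℝ => ⟪(fun _ : ℝ => (1:ℂ)) x, (fun _ : ℝ => (1:ℂ)) y⟫_ℂ) =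
      ker (fun _ => (1 : ℂ)) := by
    ext x y
    simp [ker]
  rw [← h2]; exact h

/-- the big kernel -/
noncomputable def bigK (T F₁ F₂ : ℝ → ℂ) : Matrix (ℝ × ℝ × Bool) (ℝ × ℝ × Bool) ℂ := fun p q =>
  T (q.1 - p.1) * (if p.2.2 = true ∧ q.2.2 = true then F₁ (q.2.1 - p.2.1) else
    if p.2.2 = false ∧ q.2.2 = false then F₂ (q.2.1 - p.2.1) else 0)

theorem bigK_posSemidef {T F₁ F₂ : ℝ → ℂ} (hT : (ker T).PosSemidef) (h₁ : (ker F₁).PosSemidef)
    (h₂ : (ker F₂).PosSemidef) : (bigK T F₁ F₂).PosSemidef := by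
  let G : Bool → Matrix (ℝ × ℝ × Bool) (ℝ × ℝ × Bool) ℂ := fun b =>
    Matrix.of fun x y => ⟪(fun p : ℝ × ℝ × Bool => if p.2.2 = b then (1:ℂ) else 0) x,
      (fun p : ℝ × ℝ × Bool => if p.2.2 = b then (1:ℂ) else 0) y⟫_ℂ
  have hG : ∀ b, (G b).PosSemidef := fun b => posSemidef_inner _
  have k1 := (h₁.submatrix (fun p : ℝ × ℝ × Bool => p.2.1)).hadamard (hG true)
  have k2 := (h₂.submatrix (fun p : ℝ × ℝ × Bool => p.2.1)).hadamard (hG false)
  have k3 := (hT.submatrix (fun p : ℝ × ℝ × Bool => p.1)).hadamard (k1.add k2)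
  have : bigK T F₁ F₂ = ((ker T).submatrix (fun p : ℝ × ℝ × Bool => p.1) (fun p => p.1)).hadamard
      (((ker F₁).submatrix (fun p : ℝ × ℝ × Bool => p.2.1) (fun p => p.2.1)).hadamard (G true) +
      ((ker F₂).submatrix (fun p : ℝ × ℝ × Bool => p.2.1) (fun p => p.2.1)).hadamard (G false)) := by
    ext p q
    obtain ⟨p1, p2, p3⟩ := p
    obtain ⟨q1, q2, q3⟩ := q
    simp only [bigK, Matrix.hadamard_apply, Matrix.submatrix_apply, Matrix.add_apply, ker, G,
      RCLike.inner_apply, Matrix.of_apply]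
    cases p3 <;> cases q3 <;> simp
  rw [this]
  exact k3

theorem exists_rep_pair {T F₁ F₂ : ℝ → ℂ} (hT : (ker T).PosSemidef) (h₁ : (ker F₁).PosSemidef)
    (h₂ : (ker F₂).PosSemidef) :
    ∃ (H : Type) (_ : NormedAddCommGroup H) (_ : InnerProductSpace ℂ H) (_ : CompleteSpace H)
      (U : ℝ → H →L[ℂ] H) (u : ℝ → H) (v : H), Rep U ∧
      ∀ b x, ⟪u b, U x v⟫_ℂ = T (x - b) * (F₁ x - F₂ x) := by
  obtain ⟨H, i1, i2, i3, e, U, he, hU1, hU⟩ := exists_rep (bigK_posSemidef hT h₁ h₂)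
    (fun x p => (p.1 + x, p.2.1 + x, p.2.2))
    (by rintro ⟨a, b, c⟩; simp)
    (by rintro x y ⟨a, b, c⟩; simp only [Prod.mk.injEq, and_true]; constructor <;> ring)
    (by rintro x ⟨a, b, c⟩ ⟨a', b', c'⟩; simp only [bigK, add_sub_add_right_eq_sub])
  refine ⟨H, i1, i2, i3, U, fun b => e (b, 0, true) - e (b, 0, false),
    e (0, 0, true) + e (0, 0, false), hU, ?_⟩
  intro b x
  rw [map_add, hU1, hU1, inner_sub_left, inner_add_right, inner_add_right, he, he, he, he]
  simp [bigK]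
  ring

theorem Hm_neg {H : Type*} [NormedAddCommGroup H] [InnerProductSpace ℂ H]
    {U : ℝ → H →L[ℂ] H} : Hm (fun x => U (-x)) = Hm U := by
  have key : ∀ V : ℝ → H →L[ℂ] H, Hm V ≤ Hm (fun x => V (-x)) := by
    intro V h hh w
    exact (hh w).comp_quasiMeasurePreserving
      (Measure.measurePreserving_neg (volume : Measure ℝ)).quasiMeasurePreserving
  refine le_antisymm ?_ (key U)
  have := key (fun x => U (-x))
  simpa using this

/-- full line version -/
theorem fullline {H : Type*} [NormedAddCommGroup H] [InnerProductSpace ℂ H]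
    [CompleteSpace H] {U : ℝ → H →L[ℂ] H} (hU : Rep U) (u v : H)
    (hm : AEMeasurable (fun x => ⟪u, U x v⟫_ℂ) volume) :
    ∃ u' v' : H, u' ∈ Hm U ∧ v' ∈ Hm U ∧ ∀ x : ℝ, ⟪u, U x v⟫_ℂ = ⟪u', U x v'⟫_ℂ := by
  have hcl := Hm_closed U
  have hcomplete : CompleteSpace (Hm U) := hcl.completeSpace_coe
  let P := (Hm U).starProjection
  let u1 : H := P u
  let v1 : H := P v
  have hu1 : u1 ∈ Hm U := Submodule.starProjection_apply_mem _ u
  have hv1 : v1 ∈ Hm U := Submodule.starProjection_apply_mem _ v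
  have hu2 : u - u1 ∈ (Hm U)ᗮ := Submodule.sub_starProjection_mem_orthogonal u
  have hv2 : v - v1 ∈ (Hm U)ᗮ := Submodule.sub_starProjection_mem_orthogonal v
  have hsplit : ∀ x, ⟪u, U x v⟫_ℂ = ⟪u1, U x v1⟫_ℂ + ⟪u - u1, U x (v - v1)⟫_ℂ := by
    intro x
    have e1 : ⟪u1, U x (v - v1)⟫_ℂ = 0 := by
      exact (Submodule.mem_orthogonal _ _).1 (orth_invariant hU hv2 x) u1 hu1
    have e2 : ⟪u - u1, U x v1⟫_ℂ = 0 := by
      exact (Submodule.mem_orthogonal' _ _).1 hu2 _ (Hm_invariant hU hv1 x)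
    have e3 : u = u1 + (u - u1) := by abel
    have e4 : v = v1 + (v - v1) := by abel
    conv_lhs => rw [e3, e4]
    rw [map_add, inner_add_left, inner_add_right, inner_add_right, e1, e2]
    ring
  refine ⟨u1, v1, hu1, hv1, ?_⟩
  have hm2 : AEMeasurable (fun x => ⟪u - u1, U x (v - v1)⟫_ℂ) volume := by
    have : (fun x => ⟪u - u1, U x (v - v1)⟫_ℂ) = fun x => ⟪u, U x v⟫_ℂ - ⟪u1, U x v1⟫_ℂ := by
      funext x; rw [hsplit x]; ring
    rw [this]
    exact hm.sub (hv1 u1)
  have hz1 := vanish_of_orth hU hu2 hm2.restrict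
  have hz2 := vanish_of_orth (U := fun x => U (-x)) hU.neg (u := u - u1) (v := v - v1)
    (by rw [Hm_neg]; exact hu2) (by
      have := hm2.comp_quasiMeasurePreserving
        (Measure.measurePreserving_neg (volume : Measure ℝ)).quasiMeasurePreserving
      exact this.restrict)
  intro x
  rw [hsplit x]
  rcases le_total 0 x with hx | hx
  · rw [hz1 x hx, add_zero]
  · have := hz2 (-x) (by linarith)
    simp only [neg_neg] at this
    rw [this, add_zero]

theorem diag_posSemidef {H : Type*} [NormedAddCommGroup H] [InnerProductSpace ℂ H]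
    {U : ℝ → H →L[ℂ] H} (hU : Rep U) (p : H) : (ker (fun x => ⟪p, U x p⟫_ℂ)).PosSemidef := by
  have h := posSemidef_inner (fun x => U x p)
  have h2 : (Matrix.of fun x y : ℝ => ⟪U x p, U y p⟫_ℂ) = ker (fun x => ⟪p, U x p⟫_ℂ) := by
    ext x y
    simp only [ker, Matrix.of_apply]
    rw [hU.inner_left, ← hU.add]
    congr 3; ring
  rw [← h2]; exact h

/-- polarisation: a Hermitian combination is a difference of two measurable functions of
positive type. -/
theorem polarise {H : Type*} [NormedAddCommGroup H] [InnerProductSpace ℂ H]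
    {U : ℝ → H →L[ℂ] H} (hU : Rep U) {u v : H} (hu : u ∈ Hm U) (hv : v ∈ Hm U) (r : ℝ)
    (hr : 0 ≤ r) :
    ∃ g₁ g₂ : ℝ → ℂ, PosType g₁ ∧ PosType g₂ ∧ AEMeasurable g₁ volume ∧ AEMeasurable g₂ volume ∧
      ∀ x, (r : ℂ) * (⟪u, U x v⟫_ℂ + ⟪v, U x u⟫_ℂ) = g₁ x - g₂ x := by
  have hp : u + v ∈ Hm U := (Hm U).add_mem hu hv
  have hq : u - v ∈ Hm U := (Hm U).sub_mem hu hv
  have hscal : ∀ (s : ℝ) (F : ℝ → ℂ), 0 ≤ s → PosType F → PosType (fun x => (s : ℂ) * F x) := by
    intro s F hs hF c hc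
    have h1 := hF c hc
    have h2 : phi (fun x => (s : ℂ) * F x) c = s * phi F c := by
      unfold phi
      rw [Finsupp.mul_sum]
      refine Finsupp.sum_congr fun x _ => ?_
      ring
    rw [h2]
    refine mul_nonneg ?_ h1
    exact_mod_cast hs
  refine ⟨fun x => ((r / 2 : ℝ) : ℂ) * ⟪u + v, U x (u + v)⟫_ℂ,
    fun x => ((r / 2 : ℝ) : ℂ) * ⟪u - v, U x (u - v)⟫_ℂ,
    hscal _ _ (by linarith) (posType_of_posSemidef (diag_posSemidef hU _)),
    hscal _ _ (by linarith) (posType_of_posSemidef (diag_posSemidef hU _)),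
    (hp _).const_mul _, (hq _).const_mul _, ?_⟩
  intro x
  simp only [map_add, map_sub, inner_add_left, inner_add_right, inner_sub_left, inner_sub_right]
  push_cast
  ring

theorem main_infinite {F₁ F₂ : ℝ → ℂ} (h₁ : PosType F₁) (h₂ : PosType F₂)
    (hm : AEMeasurable (fun x => F₁ x - F₂ x) volume) :
    ∃ g₁ g₂ : ℝ → ℂ, PosType g₁ ∧ PosType g₂ ∧ AEMeasurable g₁ volume ∧ AEMeasurable g₂ volume ∧
      ∀ x, F₁ x - F₂ x = g₁ x - g₂ x := by
  obtain ⟨H, i1, i2, i3, U, u, v, hU, huv⟩ :=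
    exists_rep_pair ker_one_posSemidef h₁.posSemidef h₂.posSemidef
  have huv' : ∀ x, ⟪u 0, U x v⟫_ℂ = F₁ x - F₂ x := fun x => by rw [huv]; simp
  obtain ⟨u', v', hu', hv', he⟩ := fullline hU (u 0) v (by simpa only [huv'] using hm)
  obtain ⟨g₁, g₂, hg1, hg2, hg3, hg4, hg5⟩ := polarise hU hu' hv' (1/2) (by norm_num)
  refine ⟨g₁, g₂, hg1, hg2, hg3, hg4, ?_⟩
  intro x
  rw [← hg5 x]
  have e1 : ⟪u', U x v'⟫_ℂ = F₁ x - F₂ x := by rw [← he, huv']
  have e2 : ⟪v', U x u'⟫_ℂ = F₁ x - F₂ x := by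
    have : ⟪v', U x u'⟫_ℂ = (starRingEnd ℂ) ⟪u', U (-x) v'⟫_ℂ := by
      rw [inner_conj_symm, hU.inner_left, neg_neg]
    rw [this, ← he, huv', map_sub, h₁.hermitian, h₂.hermitian]
    simp
  rw [e1, e2]
  push_cast; ring

theorem main_finite {a : ℝ} (ha : 0 < a) {F₁ F₂ : ℝ → ℂ} (h₁ : PosType F₁) (h₂ : PosType F₂)
    (hm : AEMeasurable (fun x => F₁ x - F₂ x) (volume.restrict (Set.Ioo (-a) a))) :
    ∃ g₁ g₂ : ℝ → ℂ, PosType g₁ ∧ PosType g₂ ∧ AEMeasurable g₁ volume ∧ AEMeasurable g₂ volume ∧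
      ∀ x ∈ Set.Ioo (-a) a, F₁ x - F₂ x = g₁ x - g₂ x := by
  obtain ⟨H, i1, i2, i3, U, u, v, hU, huv⟩ :=
    exists_rep_pair (tri_posSemidef ha) h₁.posSemidef h₂.posSemidef
  let c : ℝ → ℂ := fun x => tri a (x - a) * (F₁ x - F₂ x)
  have huv' : ∀ x, ⟪u a, U x v⟫_ℂ = c x := fun x => huv a x
  -- measurability on the half line
  have hc : AEMeasurable c (volume.restrict (Set.Iio a)) := by
    have e1 : AEMeasurable c (volume.restrict (Set.Ioo (-a) a)) := by
      refine AEMeasurable.mul ?_ hm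
      exact ((tri_continuous a).comp (continuous_sub_right a)).measurable.aemeasurable
    have e2 : AEMeasurable c (volume.restrict (Set.Iic (-a))) := by
      have : AEMeasurable (fun _ : ℝ => (0:ℂ)) (volume.restrict (Set.Iic (-a))) :=
        aemeasurable_const
      refine this.congr ?_
      filter_upwards [ae_restrict_mem measurableSet_Iic] with x hx
      simp only [c]
      rw [tri_left ha hx, zero_mul]
    have e3 : Set.Iio a = Set.Iic (-a) ∪ Set.Ioo (-a) a := by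
      ext x
      simp only [Set.mem_Iio, Set.mem_union, Set.mem_Iic, Set.mem_Ioo]
      constructor
      · intro h
        rcases le_or_gt x (-a) with h1 | h1
        · exact Or.inl h1
        · exact Or.inr ⟨h1, h⟩
      · rintro (h | h)
        · linarith
        · exact h.2
    rw [e3]
    exact aemeasurable_union_iff.2 ⟨e2, e1⟩
  have hc2 : AEMeasurable (fun y => ⟪u a, (fun x => U (-x)) y (U a v)⟫_ℂ)
      (volume.restrict (Set.Ioi 0)) := by
    have e1 : (fun y => ⟪u a, (fun x => U (-x)) y (U a v)⟫_ℂ) = c ∘ (fun y => a - y) := by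
      funext y
      simp only [Function.comp]
      rw [← huv', ← hU.add]
      congr 3; ring
    rw [e1]
    have e2 : Measure.QuasiMeasurePreserving (fun y : ℝ => a - y)
        (volume.restrict (Set.Ioi 0)) (volume.restrict (Set.Iio a)) := by
      refine Measure.QuasiMeasurePreserving.restrict
        (Measure.measurePreserving_sub_left volume a).quasiMeasurePreserving ?_
      intro x hx
      simp only [Set.mem_Ioi, Set.mem_Iio] at *
      linarith
    exact hc.comp_quasiMeasurePreserving e2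
  obtain ⟨u', v', hu', hv', he⟩ := halfline hU.neg (u a) (U a v) hc2
  rw [Hm_neg] at hu' hv'
  let v'' : H := U (-a) v'
  have hv'' : v'' ∈ Hm U := Hm_invariant hU hv' _
  have hcx : ∀ x, x ≤ a → c x = ⟪u', U x v''⟫_ℂ := by
    intro x hx
    have h1 := he (a - x) (by linarith)
    have h2 : ⟪u a, U (-(a - x)) (U a v)⟫_ℂ = c x := by
      rw [← hU.add, ← huv']; congr 3; ring
    have h3 : ⟪u', U (-(a - x)) v'⟫_ℂ = ⟪u', U x v''⟫_ℂ := by
      simp only [v'']
      rw [← hU.add]; congr 3; ring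
    rw [← h2, h1, h3]
  obtain ⟨g₁, g₂, hg1, hg2, hg3, hg4, hg5⟩ := polarise hU hu' hv'' 1 (by norm_num)
  refine ⟨g₁, g₂, hg1, hg2, hg3, hg4, ?_⟩
  intro x hx
  rw [← hg5 x]
  have e1 : ⟪u', U x v''⟫_ℂ = c x := (hcx x hx.2.le).symm
  have e2 : ⟪v'', U x u'⟫_ℂ = (starRingEnd ℂ) (c (-x)) := by
    rw [hcx (-x) (by linarith [hx.1]), inner_conj_symm]
    exact hU.inner_right _ _ _
  rw [e1, e2]
  simp only [c]
  rw [map_mul, map_sub, h₁.hermitian, h₂.hermitian, tri_mid ha hx.1 hx.2,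
    tri_mid ha (by linarith [hx.2]) (by linarith [hx.1]), Complex.conj_ofReal,
    Complex.conj_conj, Complex.conj_conj]
  have ha' : (a : ℂ) ≠ 0 := by exact_mod_cast ha.ne'
  push_cast
  field_simp
  ring

end Pool.Agent.Helper56.PD
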